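import Mathlib

/-!
# Turan numbers of suspensions of trees: the bound `f(n,k)` fails for every `k ≥ 2`

For `k ≥ 2` let `T` be the tree of depth two in which the root has `k` children and each of these
children has `k` children. Its colour classes have `k` and `k ^ 2 + 1` vertices. Put a disjoint
union of cliques `K_k` into each of the two sides of a balanced complete bipartite graph. The
resulting graph does not contain the suspension of `T`, and has more than `f(n,k)` edges.
-/

set_option autoImplicit false

namespace Pool.Agent.Results.MP_6784b8_co.SuspensionTree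

open SimpleGraph Finset

/-- The suspension of `H`: one new vertex `none`, joined to every vertex of `H`. -/
def suspension {V : Type} (H : SimpleGraph V) : SimpleGraph (Option V) where
  Adj a b := match a, b with
    | none, none => False
    | none, some _ => True
    | some _, none => True
    | some x, some y => H.Adj x y
  symm := ⟨by
    rintro (_ | x) (_ | y) h
    · exact h
    · trivial
    · trivial
    · exact SimpleGraph.Adj.symm (G := H) h⟩
  loopless := ⟨by
    rintro (_ | x) h
    · exact h
    · exact H.loopless.irrefl x h⟩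

/-- `f(n,k) = max { n₀ n₁ + ⌊(k-1) n₀ / 2⌋ : n₀ + n₁ = n }`. -/
def f (n k : ℕ) : ℕ := (range (n + 1)).sup fun n₀ => n₀ * (n - n₀) + (k - 1) * n₀ / 2

/-- The number of vertices in the smaller colour class of a proper 2-colouring `C` (a connected
graph has only one such colouring up to swapping the colours). -/
noncomputable def smallerClass {V : Type} {T : SimpleGraph V} (C : T.Coloring Bool) : ℕ :=
  min (Nat.card {v // C v = true}) (Nat.card {v // C v = false})

section tree

variable {V : Type} [Fintype V]

/-- A graph given by a parent map. -/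
def parentGraph (r : V) (p : V → V) (rk : V → ℕ) (h : ∀ v, v ≠ r → rk (p v) < rk v) :
    SimpleGraph V where
  Adj a b := (a ≠ r ∧ b = p a) ∨ (b ≠ r ∧ a = p b)
  symm := ⟨fun a b hab => hab.symm⟩
  loopless := ⟨fun a ha => by
    rcases ha with ⟨h1, h2⟩ | ⟨h1, h2⟩ <;>
    · have := h a h1
      rw [← h2] at this
      exact lt_irrefl _ this⟩

theorem parentGraph_isTree (r : V) (p : V → V) (rk : V → ℕ) (h : ∀ v, v ≠ r → rk (p v) < rk v) :
    (parentGraph r p rk h).IsTree := by
  classical
  rw [isTree_iff_connected_and_card]
  constructor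
  · have hr : ∀ n, ∀ v, rk v = n → (parentGraph r p rk h).Reachable v r := by
      intro n
      induction n using Nat.strong_induction_on with
      | _ n ih =>
        intro v hv
        by_cases hvr : v = r
        · rw [hvr]
        · have h1 : (parentGraph r p rk h).Adj v (p v) := Or.inl ⟨hvr, rfl⟩
          exact h1.reachable.trans (ih _ (hv ▸ h v hvr) _ rfl)
    have : Nonempty V := ⟨r⟩
    exact ⟨fun a b => (hr _ a rfl).trans (hr _ b rfl).symm⟩
  · let g : {v : V // v ≠ r} → (parentGraph r p rk h).edgeSet := fun v =>
      ⟨s(v.1, p v.1), (mem_edgeSet _).2 (Or.inl ⟨v.2, rfl⟩)⟩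
    have hg : Function.Bijective g := by
      constructor
      · rintro ⟨v, hv⟩ ⟨w, hw⟩ hvw
        have h1 : s(v, p v) = s(w, p w) := congrArg Subtype.val hvw
        rw [Sym2.eq_iff] at h1
        rcases h1 with ⟨h1, _⟩ | ⟨h1, h2⟩
        · exact Subtype.ext h1
        · exfalso
          have a1 := h v hv
          have a2 := h w hw
          rw [h2] at a1
          rw [← h1] at a2
          omega
      · rintro ⟨e, he⟩
        induction e using Sym2.ind with
        | _ x y =>
          rw [mem_edgeSet] at he
          rcases he with ⟨h1, h2⟩ | ⟨h1, h2⟩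
          · refine ⟨⟨x, h1⟩, Subtype.ext ?_⟩
            show s(x, p x) = s(x, y)
            rw [h2]
          · refine ⟨⟨y, h1⟩, Subtype.ext ?_⟩
            show s(y, p y) = s(x, y)
            rw [h2]
            exact Sym2.eq_swap
    rw [← Nat.card_congr (Equiv.ofBijective g hg), Nat.card_eq_fintype_card,
      Nat.card_eq_fintype_card, Fintype.card_subtype_compl, Fintype.card_subtype_eq]
    have : 0 < Fintype.card V := Fintype.card_pos_iff.2 ⟨r⟩
    omega

end tree

/-- The vertices of the tree: `none` is the root, `some (i, none)` the `i`-th child, and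
`some (i, some j)` the `j`-th child of the `i`-th child. -/
abbrev TV (k : ℕ) : Type := Option (Fin k × Option (Fin k))

/-- the parent -/
def par {k : ℕ} : TV k → TV k
  | none => none
  | some (_, none) => none
  | some (i, some _) => some (i, none)

/-- the depth -/
def rnk {k : ℕ} : TV k → ℕ
  | none => 0
  | some (_, none) => 1
  | some (_, some _) => 2

theorem rnk_par {k : ℕ} (v : TV k) (hv : v ≠ none) : rnk (par v) < rnk v := by
  rcases v with _ | ⟨i, _ | j⟩
  · exact absurd rfl hv
  · simp [par, rnk]
  · simp [par, rnk]

/-- The tree. -/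
def tree (k : ℕ) : SimpleGraph (TV k) := parentGraph none par rnk rnk_par

theorem tree_isTree (k : ℕ) : (tree k).IsTree := parentGraph_isTree _ _ _ _

/-- its 2-colouring -/
def col (k : ℕ) : (tree k).Coloring Bool :=
  Coloring.mk (fun v => match v with
    | none => false
    | some (_, none) => true
    | some (_, some _) => false) (by
      rintro (_ | ⟨i, _ | j⟩) (_ | ⟨i', _ | j'⟩) h <;>
        simp_all [tree, parentGraph, par])

theorem smallerClass_col (k : ℕ) (hk : 1 ≤ k) : smallerClass (col k) = k := by
  have h1 : Nat.card {v // col k v = true} = k := by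
    let e : Fin k ≃ {v // col k v = true} :=
      { toFun := fun i => ⟨some (i, none), rfl⟩
        invFun := fun v => match v with
          | ⟨some (i, none), _⟩ => i
          | ⟨none, h⟩ => absurd h Bool.false_ne_true
          | ⟨some (_, some _), h⟩ => absurd h Bool.false_ne_true
        left_inv := fun i => rfl
        right_inv := by
          rintro ⟨_ | ⟨i, _ | j⟩, h⟩
          · exact absurd h Bool.false_ne_true
          · rfl
          · exact absurd h Bool.false_ne_true }
    rw [← Nat.card_congr e]
    simp
  have h2 : k ≤ Nat.card {v // col k v = false} := by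
    have : Fintype.card (Fin k) ≤ Fintype.card {v // col k v = false} := by
      refine Fintype.card_le_of_injective
        (fun i => (⟨some (i, some ⟨0, hk⟩), rfl⟩ : {v // col k v = false})) ?_
      intro i j hij
      have h3 := congrArg Subtype.val hij
      simp only [Option.some.injEq, Prod.mk.injEq] at h3
      exact h3.1
    rw [Fintype.card_fin] at this
    rwa [Nat.card_eq_fintype_card]
  unfold smallerClass
  rw [h1]
  exact min_eq_left h2

/-- The host: two sides, each of them a disjoint union of `q` cliques `K_k`, completely joined. -/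
def host (q k : ℕ) : SimpleGraph (Bool × (Fin q × Fin k)) where
  Adj x y := x.1 ≠ y.1 ∨ (x.2.1 = y.2.1 ∧ x.2.2 ≠ y.2.2)
  symm := ⟨fun x y h => h.imp Ne.symm fun h => ⟨h.1.symm, h.2.symm⟩⟩
  loopless := ⟨fun x h => by
    rcases h with h | h
    · exact h rfl
    · exact h.2 rfl⟩

instance (q k : ℕ) : DecidableRel (host q k).Adj := fun x y => by
  unfold host
  infer_instance

theorem no_inj {k : ℕ} (g : Fin k → Fin k) (hg : Function.Injective g) (b : Fin k)
    (hb : ∀ i, g i ≠ b) : False := by
  obtain ⟨i, hi⟩ := (Finite.injective_iff_surjective.1 hg) b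
  exact hb i hi

theorem host_free (q k : ℕ) : (suspension (tree k)).Free (host q k) := by
  rintro ⟨φ⟩
  have hinj := φ.injective
  have hadj : ∀ x y, (suspension (tree k)).Adj x y → (host q k).Adj (φ x) (φ y) :=
    fun x y h => φ.toHom.map_adj h
  -- every branch has a vertex on the side of the apex
  have key : ∀ i : Fin k, ∃ o : Option (Fin k), (φ (some (some (i, o)))).1 = (φ none).1 := by
    intro i
    by_contra hcon
    push Not at hcon
    have hside : ∀ o o', (φ (some (some (i, o)))).1 = (φ (some (some (i, o')))).1 := by
      intro o o'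
      have h1 := hcon o
      have h2 := hcon o'
      revert h1 h2
      generalize (φ (some (some (i, o)))).1 = a
      generalize (φ (some (some (i, o')))).1 = b
      generalize (φ none).1 = c
      revert a b c
      decide
    have hl : ∀ j : Fin k, (φ (some (some (i, none)))).2.1 = (φ (some (some (i, some j)))).2.1 ∧
        (φ (some (some (i, none)))).2.2 ≠ (φ (some (some (i, some j)))).2.2 := by
      intro j
      have h1 : (suspension (tree k)).Adj (some (some (i, none))) (some (some (i, some j))) := by
        show (tree k).Adj (some (i, none)) (some (i, some j))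
        exact Or.inr ⟨by simp, rfl⟩
      rcases hadj _ _ h1 with h2 | h2
      · exact absurd (hside _ _) h2
      · exact h2
    refine no_inj (fun j => (φ (some (some (i, some j)))).2.2) ?_
      ((φ (some (some (i, none)))).2.2) (fun j => (hl j).2.symm)
    intro j j' hjj
    have h1 : φ (some (some (i, some j))) = φ (some (some (i, some j'))) := by
      refine Prod.ext (hside _ _) (Prod.ext ?_ hjj)
      rw [← (hl j).1, ← (hl j').1]
    have h2 := hinj h1
    simpa using h2
  choose o ho using key
  have hl : ∀ i : Fin k, (φ none).2.1 = (φ (some (some (i, o i)))).2.1 ∧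
      (φ none).2.2 ≠ (φ (some (some (i, o i)))).2.2 := by
    intro i
    rcases hadj none (some (some (i, o i))) trivial with h2 | h2
    · exact absurd (ho i).symm h2
    · exact h2
  refine no_inj (fun i => (φ (some (some (i, o i)))).2.2) ?_ ((φ none).2.2)
    (fun i => (hl i).2.symm)
  intro i j hij
  have h1 : φ (some (some (i, o i))) = φ (some (some (j, o j))) := by
    refine Prod.ext ((ho i).trans (ho j).symm) (Prod.ext ?_ hij)
    rw [← (hl i).1, ← (hl j).1]
  have h2 := hinj h1
  simp only [Option.some.injEq, Prod.mk.injEq] at h2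
  exact h2.1

theorem host_degree (q k : ℕ) (x : Bool × (Fin q × Fin k)) :
    (host q k).degree x = q * k + (k - 1) := by
  rw [← card_neighborFinset_eq_degree]
  have h1 : (host q k).neighborFinset x =
      (({!x.1} : Finset Bool) ×ˢ (univ : Finset (Fin q × Fin k))) ∪
      (({x.1} : Finset Bool) ×ˢ (({x.2.1} : Finset (Fin q)) ×ˢ (univ.erase x.2.2))) := by
    ext y
    rw [mem_neighborFinset]
    simp only [host, mem_union, mem_product, mem_singleton, mem_univ, and_true, mem_erase]
    constructor
    · rintro (h | ⟨h2, h3⟩)
      · left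
        revert h
        generalize x.1 = a
        generalize y.1 = b
        revert a b
        decide
      · by_cases h : x.1 = y.1
        · right
          exact ⟨h.symm, h2.symm, fun h' => h3 h'.symm⟩
        · left
          revert h
          generalize x.1 = a
          generalize y.1 = b
          revert a b
          decide
    · rintro (h | ⟨h1, h2, h3⟩)
      · left
        rw [h]
        simp
      · right
        exact ⟨h2.symm, fun h' => h3 h'.symm⟩
  rw [h1, card_union_of_disjoint]
  · rw [card_product, card_product, card_product, card_singleton, card_singleton, card_singleton,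
      card_univ, card_erase_of_mem (mem_univ _), card_univ, Fintype.card_prod, Fintype.card_fin,
      Fintype.card_fin]
    ring
  · rw [Finset.disjoint_left]
    intro y hy hy'
    simp only [mem_product, mem_singleton] at hy hy'
    have := hy.1.symm.trans hy'.1
    simp at this

theorem host_edges (q k : ℕ) (hk : 1 ≤ k) :
    #(host q k).edgeFinset = q * k * (q * k + (k - 1)) := by
  have h1 := (host q k).sum_degrees_eq_twice_card_edges
  simp_rw [host_degree] at h1
  rw [sum_const, card_univ, Fintype.card_prod, Fintype.card_bool, Fintype.card_prod,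
    Fintype.card_fin, Fintype.card_fin, smul_eq_mul] at h1
  have h2 : 2 * (q * k) * (q * k + (k - 1)) = 2 * (q * k * (q * k + (k - 1))) := by ring
  rw [h2] at h1
  omega

theorem f_le (N k : ℕ) (hk : 2 ≤ k) (hN : k ≤ N) :
    f (2 * N) k + N / 4 < N * (N + (k - 1)) := by
  obtain ⟨c, rfl⟩ : ∃ c, k = c + 1 := ⟨k - 1, by omega⟩
  have hpos : 0 < N * (N + (c + 1 - 1)) - N / 4 := by
    have : N * 1 ≤ N * (N + (c + 1 - 1)) := Nat.mul_le_mul_left _ (by omega)
    omega
  have key : f (2 * N) (c + 1) < N * (N + (c + 1 - 1)) - N / 4 := by
    unfold f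
    rw [Finset.sup_lt_iff (by simpa using hpos)]
    intro a ha
    rw [mem_range] at ha
    have ha' : a ≤ 2 * N := by omega
    obtain ⟨b, hb⟩ : ∃ b, 2 * N - a = b := ⟨_, rfl⟩
    have hab : a + b = 2 * N := by omega
    rw [hb]
    simp only [Nat.add_sub_cancel]
    have h1 : (c * a / 2) * 2 ≤ c * a := Nat.div_mul_le_self _ _
    have h2 : N / 4 * 4 ≤ N := Nat.div_mul_le_self _ _
    have h3 : 4 * (a * b) + 2 * (c * a) + N < 4 * (N * (N + c)) := by
      zify at hab hN ⊢
      have hc : (1 : ℤ) ≤ c := by omega
      have hc0 : (0 : ℤ) ≤ c := by omega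
      -- a = N + d, b = N - d
      obtain ⟨d, hd⟩ : ∃ d : ℤ, (a : ℤ) = N + d := ⟨a - N, by ring⟩
      have hb' : (b : ℤ) = N - d := by linarith
      rw [hd, hb']
      nlinarith [sq_nonneg (4 * d - c), mul_nonneg hc0 (by linarith : (0:ℤ) ≤ N - c - 1),
        mul_nonneg (by linarith : (0:ℤ) ≤ c - 1) (by linarith : (0:ℤ) ≤ (N:ℤ))]
    omega
  omega

/-- For every `k ≥ 2` there is a tree `T` whose smaller colour class has `k` vertices such that
`ex(n, T̂) > f(n,k) + n/8 - 1` for infinitely many `n`. In particular it is not true that for every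
tree `T` whose smaller colour class has size `k` one has `ex(n, T̂) ≤ f(n,k)` for all large `n`. -/
theorem result :
    (∀ k : ℕ, 2 ≤ k → ∃ (V : Type) (_ : Fintype V) (T : SimpleGraph V) (C : T.Coloring Bool),
      T.IsTree ∧ 2 ≤ Fintype.card V ∧ smallerClass C = k ∧
      ∀ n₀ : ℕ, ∃ n ≥ n₀, f n k + n / 8 < extremalNumber n (suspension T)) ∧
    ¬ (∀ (V : Type) [Fintype V] (T : SimpleGraph V), T.IsTree → 2 ≤ Fintype.card V →
      ∀ (C : T.Coloring Bool) (k : ℕ), smallerClass C = k →
        ∃ n₀ : ℕ, ∀ n ≥ n₀, extremalNumber n (suspension T) ≤ f n k) := by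
  have main : ∀ k : ℕ, 2 ≤ k → ∃ (V : Type) (_ : Fintype V) (T : SimpleGraph V)
      (C : T.Coloring Bool), T.IsTree ∧ 2 ≤ Fintype.card V ∧ smallerClass C = k ∧
      ∀ n₀ : ℕ, ∃ n ≥ n₀, f n k + n / 8 < extremalNumber n (suspension T) := by
    intro k hk
    refine ⟨TV k, inferInstance, tree k, col k, tree_isTree k, ?_,
      smallerClass_col k (by omega), ?_⟩
    · simp only [Fintype.card_option, Fintype.card_prod, Fintype.card_fin]
      have : 1 ≤ k * (k + 1) := Nat.mul_pos (by omega) (by omega)
      omega
    · intro n₀
      have hq : 1 ≤ n₀ + 1 := by omega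
      have hN : k ≤ (n₀ + 1) * k := Nat.le_mul_of_pos_left _ (by omega)
      have hn : n₀ + 1 ≤ (n₀ + 1) * k := Nat.le_mul_of_pos_right _ (by omega)
      refine ⟨2 * ((n₀ + 1) * k), by omega, ?_⟩
      have h1 := card_edgeFinset_le_extremalNumber (host_free (n₀ + 1) k)
      rw [host_edges _ _ (by omega)] at h1
      have h2 : Fintype.card (Bool × (Fin (n₀ + 1) × Fin k)) = 2 * ((n₀ + 1) * k) := by
        simp
      rw [h2] at h1
      have h3 := f_le ((n₀ + 1) * k) k hk hN
      have h4 : 2 * ((n₀ + 1) * k) / 8 = (n₀ + 1) * k / 4 := by omega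
      omega
  refine ⟨main, fun hall => ?_⟩
  obtain ⟨V, hV, T, C, hT, hc, hk, h⟩ := main 2 le_rfl
  obtain ⟨n₀, hn₀⟩ := hall V T hT hc C 2 hk
  obtain ⟨n, hn, hlt⟩ := h n₀
  have := hn₀ n hn
  omega

end Pool.Agent.Results.MP_6784b8_co.SuspensionTree
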